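import Mathlib

/-!
# MP_6a4cde_an: every countable infinite group has a 3-tame system that is not tame

Take `J ⊆ G` infinite such that `J ∩ aJ` and `J ∩ Ja` have at most two elements for every `a ≠ 1`
and let `X ⊆ {0,1}^G` be the set of all indicator functions of subsets of the right translates of
`J`.
-/

set_option autoImplicit false
open Topology Filter Set

namespace Pool.Agent.Results.MP_6a4cde_an.ThreeTameNotTame

universe u

/-- `J` is an independence set for `(U 0, …, U (n-1))`: for every nonempty finite `I ⊆ J` and every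
`σ : I → {0, …, n-1}` the intersection `⋂_{g ∈ I} φ^{g⁻¹}(U (σ g))` is nonempty. -/
def IsIndependenceSet (G : Type u) {X : Type u} [Group G] [MulAction G X] {n : ℕ}
    (U : Fin n → Set X) (J : Set G) : Prop :=
  ∀ I : Finset G, I.Nonempty → (↑I : Set G) ⊆ J → ∀ σ : G → Fin n,
    (⋂ g ∈ I, (fun x : X => g⁻¹ • x) '' U (σ g)).Nonempty

/-- `x` is an IT-tuple: for every product neighbourhood `U 0 × … × U (n-1)` of `x` the tuple
`(U 0, …, U (n-1))` has an infinite independence set. -/
def IsITTuple (G : Type u) {X : Type u} [Group G] [MulAction G X] [TopologicalSpace X] {n : ℕ}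
    (x : Fin n → X) : Prop :=
  ∀ U : Fin n → Set X, (∀ i, U i ∈ 𝓝 (x i)) → ∃ J : Set G, J.Infinite ∧ IsIndependenceSet G U J

/-- The system is `n`-tame: there is no IT-tuple of length `n` with pairwise distinct entries. -/
def IsTameOrder (n : ℕ) (G X : Type u) [Group G] [MulAction G X] [TopologicalSpace X] : Prop :=
  ∀ x : Fin n → X, IsITTuple G x → ∃ i j, i ≠ j ∧ x i = x j

/-! ### The set `J` -/

section setJ

variable {G : Type u} [Group G]

/-- no three distinct elements of `J` are moved into `J` by a nontrivial left (right) translation -/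
def Thin (J : Set G) : Prop :=
  (∀ a : G, a ≠ 1 → ∀ x y z : G, x ≠ y → y ≠ z → x ≠ z → x ∈ J → y ∈ J → z ∈ J →
    a * x ∈ J → a * y ∈ J → a * z ∈ J → False) ∧
  (∀ a : G, a ≠ 1 → ∀ x y z : G, x ≠ y → y ≠ z → x ≠ z → x ∈ J → y ∈ J → z ∈ J →
    x * a ∈ J → y * a ∈ J → z * a ∈ J → False)

lemma pick_exists [Infinite G] (S : Finset G) :
    ∃ y : G, ∀ a ∈ S, ∀ b ∈ S, ∀ d ∈ S, y ≠ a * b⁻¹ * d := by
  classical
  obtain ⟨y, hy⟩ := Infinite.exists_notMem_finset
    (((S ×ˢ S) ×ˢ S).image fun p => p.1.1 * p.1.2⁻¹ * p.2)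
  refine ⟨y, fun a ha b hb d hd h => hy ?_⟩
  rw [Finset.mem_image]
  exact ⟨((a, b), d), by simp [ha, hb, hd], h.symm⟩

open Classical in
/-- the first elements of the greedy sequence -/
noncomputable def greedy [Infinite G] : ℕ → Finset G
  | 0 => ∅
  | n + 1 => insert (pick_exists (greedy n)).choose (greedy n)

/-- the greedy sequence -/
noncomputable def jj [Infinite G] (n : ℕ) : G := (pick_exists (greedy (G := G) n)).choose

lemma mem_greedy [Infinite G] {n m : ℕ} (h : m < n) : jj (G := G) m ∈ greedy (G := G) n := by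
  classical
  induction n with
  | zero => omega
  | succ n ih =>
    rw [greedy, Finset.mem_insert]
    rcases Nat.lt_succ_iff_lt_or_eq.1 h with h | h
    · exact Or.inr (ih h)
    · subst h; exact Or.inl rfl

lemma jj_ne [Infinite G] {n a b d : ℕ} (ha : a < n) (hb : b < n) (hd : d < n) :
    jj (G := G) n ≠ jj a * (jj b)⁻¹ * jj d :=
  (pick_exists (greedy (G := G) n)).choose_spec _ (mem_greedy ha) _ (mem_greedy hb) _
    (mem_greedy hd)

lemma jj_inj [Infinite G] : Function.Injective (jj (G := G)) := by
  intro m n h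
  by_contra hne
  rcases Nat.lt_or_gt_of_ne hne with hlt | hlt
  · exact jj_ne hlt hlt hlt (by rw [← h]; group)
  · exact jj_ne hlt hlt hlt (by rw [h]; group)

/-- A purely combinatorial lemma: three pairs of indices `(x i, y i)`, with injective coordinates
and `x i ≠ y i`; some pair involves an index bigger than all indices of another pair. -/
lemma pairs (x y : Fin 3 → ℕ) (hx : Function.Injective x) (hy : Function.Injective y)
    (hxy : ∀ i, x i ≠ y i) :
    ∃ i k, i ≠ k ∧ ((x k < x i ∧ y k < x i ∧ y i < x i) ∨ (x k < y i ∧ y k < y i ∧ x i < y i)) := by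
  obtain ⟨i, hi⟩ := Finite.exists_max x
  obtain ⟨j, hj⟩ := Finite.exists_max y
  have hq3 : ∀ i j : Fin 3, ∃ q : Fin 3, q ≠ i ∧ q ≠ j := by decide
  obtain ⟨q, hqi, hqj⟩ := hq3 i j
  have h1 : x q < x i := lt_of_le_of_ne (hi q) fun h => hqi (hx h)
  have h2 : y q < y j := lt_of_le_of_ne (hj q) fun h => hqj (hy h)
  rcases le_or_gt (y j) (x i) with h | h
  · exact ⟨i, q, hqi.symm, Or.inl ⟨h1, lt_of_lt_of_le h2 h,
      lt_of_le_of_ne ((hj i).trans h) (hxy i).symm⟩⟩
  · exact ⟨j, q, hqj.symm, Or.inr ⟨h1.trans h, h2, lt_of_le_of_lt (hi j) h⟩⟩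

lemma exists_thin [Infinite G] : ∃ J : Set G, J.Infinite ∧ Thin J := by
  refine ⟨range (jj (G := G)), infinite_range_of_injective jj_inj, ?_, ?_⟩
  · intro a ha x y z hxy hyz hxz hx hy hz hax hay haz
    obtain ⟨i0, rfl⟩ := hx
    obtain ⟨i1, rfl⟩ := hy
    obtain ⟨i2, rfl⟩ := hz
    obtain ⟨k0, hk0⟩ := hax
    obtain ⟨k1, hk1⟩ := hay
    obtain ⟨k2, hk2⟩ := haz
    have hI : Function.Injective ![i0, i1, i2] := by
      intro p q h
      fin_cases p <;> fin_cases q <;> simp_all
    have hK : ∀ p, jj (G := G) (![k0, k1, k2] p) = a * jj (![i0, i1, i2] p) := by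
      intro p; fin_cases p <;> simp_all
    have hKi : Function.Injective ![k0, k1, k2] := by
      intro p q h
      have h1 := hK p
      rw [h, hK q] at h1
      exact (hI (jj_inj (mul_left_cancel h1))).symm
    have hne : ∀ p, ![i0, i1, i2] p ≠ ![k0, k1, k2] p := by
      intro p h
      have h1 := hK p
      rw [← h] at h1
      exact ha (by simpa using h1.symm)
    obtain ⟨p, q, -, h | h⟩ := pairs _ _ hI hKi hne
    · apply jj_ne (G := G) h.1 h.2.1 h.2.2
      rw [hK, hK]; group
    · apply jj_ne (G := G) h.2.1 h.1 h.2.2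
      rw [hK, hK]; group
  · intro a ha x y z hxy hyz hxz hx hy hz hax hay haz
    obtain ⟨i0, rfl⟩ := hx
    obtain ⟨i1, rfl⟩ := hy
    obtain ⟨i2, rfl⟩ := hz
    obtain ⟨k0, hk0⟩ := hax
    obtain ⟨k1, hk1⟩ := hay
    obtain ⟨k2, hk2⟩ := haz
    have hI : Function.Injective ![i0, i1, i2] := by
      intro p q h
      fin_cases p <;> fin_cases q <;> simp_all
    have hK : ∀ p, jj (G := G) (![k0, k1, k2] p) = jj (![i0, i1, i2] p) * a := by
      intro p; fin_cases p <;> simp_all
    have hKi : Function.Injective ![k0, k1, k2] := by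
      intro p q h
      have h1 := hK p
      rw [h, hK q] at h1
      exact (hI (jj_inj (mul_right_cancel h1))).symm
    have hne : ∀ p, ![i0, i1, i2] p ≠ ![k0, k1, k2] p := by
      intro p h
      have h1 := hK p
      rw [← h] at h1
      exact ha (by simpa using h1.symm)
    obtain ⟨p, q, -, h | h⟩ := pairs _ _ hI hKi hne
    · apply jj_ne (G := G) h.2.2 h.2.1 h.1
      rw [hK, hK]; group
    · apply jj_ne (G := G) h.2.2 h.1 h.2.1
      rw [hK, hK]; group

lemma thin_finite {J : Set G} (hJ : Thin J) {a : G} (ha : a ≠ 1) :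
    {x | x ∈ J ∧ a * x ∈ J}.Finite := by
  by_contra hinf
  have hinf : {x | x ∈ J ∧ a * x ∈ J}.Infinite := hinf
  let e := hinf.natEmbedding
  have hne : ∀ m n : ℕ, m ≠ n → (e m : G) ≠ e n := by
    intro m n h h'
    exact h (e.injective (Subtype.ext h'))
  exact hJ.1 a ha (e 0) (e 1) (e 2) (hne _ _ (by norm_num)) (hne _ _ (by norm_num))
    (hne _ _ (by norm_num)) (e 0).2.1 (e 1).2.1 (e 2).2.1 (e 0).2.2 (e 1).2.2 (e 2).2.2

end setJ

/-! ### The system -/

section system

variable {G : Type u} [Group G]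

/-- the space -/
def XX (J : Set G) : Set (G → Bool) := {x | ∃ c, ∀ h, x h = true → h * c ∈ J}

lemma XX_closed {J : Set G} (hne : J.Nonempty) (hJ : Thin J) : IsClosed (XX J) := by
  apply isClosed_of_closure_subset
  intro x hx
  by_cases hone : ∀ h1 h2, x h1 = true → x h2 = true → h1 = h2
  · obtain ⟨j, hj⟩ := hne
    by_cases hex : ∃ h, x h = true
    · obtain ⟨h, hh⟩ := hex
      refine ⟨h⁻¹ * j, fun h' hh' => ?_⟩
      rw [hone h' h hh' hh]
      simpa using hj
    · push Not at hex
      exact ⟨1, fun h hh => absurd hh (hex h)⟩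
  · push Not at hone
    obtain ⟨h1, h2, hh1, hh2, hne12⟩ := hone
    have hC : {c : G | h1 * c ∈ J ∧ h2 * c ∈ J}.Finite := by
      have ha : h2 * h1⁻¹ ≠ 1 := by
        intro h
        exact hne12 (mul_inv_eq_one.1 h).symm
      refine ((thin_finite hJ ha).image (fun y => h1⁻¹ * y)).subset ?_
      rintro c ⟨hc1, hc2⟩
      refine ⟨h1 * c, ⟨hc1, ?_⟩, by simp⟩
      have : h2 * h1⁻¹ * (h1 * c) = h2 * c := by group
      rw [this]; exact hc2
    have hcl : IsClosed (⋃ c ∈ {c : G | h1 * c ∈ J ∧ h2 * c ∈ J},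
        {x : G → Bool | ∀ h, x h = true → h * c ∈ J}) := by
      apply hC.isClosed_biUnion
      intro c _
      have : {x : G → Bool | ∀ h, x h = true → h * c ∈ J} =
          ⋂ h, {x : G → Bool | x h = true → h * c ∈ J} := by ext; simp
      rw [this]
      refine isClosed_iInter fun h => ?_
      exact (isClosed_discrete {b : Bool | b = true → h * c ∈ J}).preimage
        (continuous_apply (A := fun _ : G => Bool) h)
    have hmem : x ∈ ⋃ c ∈ {c : G | h1 * c ∈ J ∧ h2 * c ∈ J},
        {x : G → Bool | ∀ h, x h = true → h * c ∈ J} := by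
      by_contra hnot
      have hopen := hcl.isOpen_compl
      have hW1 : IsOpen {y : G → Bool | y h1 = true} :=
        (isOpen_discrete ({true} : Set Bool)).preimage (continuous_apply (A := fun _ : G => Bool) h1)
      have hW2 : IsOpen {y : G → Bool | y h2 = true} :=
        (isOpen_discrete ({true} : Set Bool)).preimage (continuous_apply (A := fun _ : G => Bool) h2)
      obtain ⟨y, ⟨hy1, hy2, hy3⟩, c, hc⟩ := mem_closure_iff.1 hx _
        (hopen.inter (hW1.inter hW2)) ⟨hnot, hh1, hh2⟩
      apply hy1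
      simp only [mem_iUnion]
      exact ⟨c, ⟨hc _ hy2, hc _ hy3⟩, hc⟩
    simp only [mem_iUnion] at hmem
    obtain ⟨c, -, hc⟩ := hmem
    exact ⟨c, hc⟩

/-- the action `(g • x)(h) = x (h g)` -/
@[reducible] def act (J : Set G) : MulAction G (XX J) where
  smul g x := ⟨fun h => x.1 (h * g), by
    obtain ⟨c, hc⟩ := x.2
    refine ⟨g * c, fun h hh => ?_⟩
    rw [← mul_assoc]; exact hc _ hh⟩
  one_smul x := by
    apply Subtype.ext
    funext h
    change x.1 (h * 1) = x.1 h
    rw [mul_one]
  mul_smul g g' x := by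
    apply Subtype.ext
    funext h
    change x.1 (h * (g * g')) = x.1 (h * g * g')
    rw [mul_assoc]

lemma act_apply (J : Set G) (g : G) (x : XX J) (h : G) :
    ((act J).toSMul.smul g x).1 h = x.1 (h * g) := rfl

lemma nhds_fin {J : Set G} {x : XX J} {U : Set (XX J)} (hU : U ∈ 𝓝 x) :
    ∃ F : Finset G, ∀ y : XX J, (∀ h ∈ F, y.1 h = x.1 h) → y ∈ U := by
  rw [nhds_subtype_eq_comap, mem_comap] at hU
  obtain ⟨V, hV, hVU⟩ := hU
  obtain ⟨W, hWV, hW, hxW⟩ := mem_nhds_iff.1 hV
  obtain ⟨F, u, hu, huW⟩ := isOpen_pi_iff.1 hW x.1 hxW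
  refine ⟨F, fun y hy => hVU (hWV (huW ?_))⟩
  intro h hh
  rw [hy h hh]
  exact (hu h hh).2

end system

/-- For every countable infinite group `G` there is a `3`-tame system `(X, φ, G)` which is not tame
(that is, not `2`-tame). -/
theorem result (G : Type u) [Group G] [Countable G] [Infinite G] :
    ∃ (X : Type u) (_ : MetricSpace X) (_ : CompactSpace X) (_ : MulAction G X),
      (∀ g : G, Continuous fun x : X => g • x) ∧ IsTameOrder 3 G X ∧ ¬ IsTameOrder 2 G X := by
  classical
  obtain ⟨J, hJinf, hJ⟩ := exists_thin (G := G)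
  have hcl := XX_closed hJinf.nonempty hJ
  haveI : CompactSpace (XX J) := isCompact_iff_compactSpace.1 hcl.isCompact
  letI : MulAction G (XX J) := act J
  -- unfolding independence
  have hind : ∀ {n : ℕ} {U : Fin n → Set (XX J)} {K : Set G}, IsIndependenceSet G U K →
      ∀ I : Finset G, I.Nonempty → (↑I : Set G) ⊆ K → ∀ σ : G → Fin n,
        ∃ x : XX J, ∀ g ∈ I, g • x ∈ U (σ g) := by
    intro n U K hK I hI hIK σ
    obtain ⟨x, hx⟩ := hK I hI hIK σ
    refine ⟨x, fun g hg => ?_⟩
    simp only [mem_iInter] at hx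
    obtain ⟨y, hy, hyx⟩ := hx g hg
    have : g • x = y := by rw [← hyx]; simp
    rw [this]; exact hy
  have hopen : ∀ h : G, IsOpen {y : XX J | y.1 h = true} := fun h =>
    (isOpen_discrete ({true} : Set Bool)).preimage
      ((continuous_apply (A := fun _ : G => Bool) h).comp continuous_subtype_val)
  refine ⟨XX J, TopologicalSpace.metrizableSpaceMetric (XX J), inferInstance, act J, ?_, ?_, ?_⟩
  · intro g
    apply Continuous.subtype_mk
    apply continuous_pi
    intro h
    exact (continuous_apply (A := fun _ : G => Bool) (h * g)).comp continuous_subtype_val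
  · -- 3-tame
    intro x hx
    by_contra hcon
    push Not at hcon
    -- every entry has at most one `1`
    have hone : ∀ i, ∀ h1 h2, (x i).1 h1 = true → (x i).1 h2 = true → h1 = h2 := by
      intro i h1 h2 hh1 hh2
      by_contra hne
      obtain ⟨K, hKinf, hK⟩ := hx (fun k => if k = i then
        {y : XX J | y.1 h1 = true} ∩ {y : XX J | y.1 h2 = true} else univ) (by
        intro k
        by_cases hk : k = i
        · subst hk
          simp only [if_true]
          exact ((hopen h1).inter (hopen h2)).mem_nhds ⟨hh1, hh2⟩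
        · simp only [hk, if_false]; exact univ_mem)
      let e := hKinf.natEmbedding
      have hen : ∀ m n : ℕ, m ≠ n → (e m : G) ≠ e n := by
        intro m n h h'
        exact h (e.injective (Subtype.ext h'))
      obtain ⟨y, hy⟩ := hind hK ((Finset.range 3).image fun k => (e k : G)) (by simp) (by
        intro g hg
        simp only [Finset.coe_image, mem_image] at hg
        obtain ⟨k, -, rfl⟩ := hg
        exact (e k).2) (fun _ => i)
      simp only [if_true] at hy
      obtain ⟨c, hc⟩ := y.2
      have hya : ∀ k < 3, y.1 (h1 * e k) = true ∧ y.1 (h2 * e k) = true := by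
        intro k hk
        exact hy (e k) (Finset.mem_image.2 ⟨k, Finset.mem_range.2 hk, rfl⟩)
      have ha : h2 * h1⁻¹ ≠ 1 := by
        intro h
        exact hne (mul_inv_eq_one.1 h).symm
      have hm : ∀ k < 3, h1 * e k * c ∈ J ∧ h2 * h1⁻¹ * (h1 * e k * c) ∈ J := by
        intro k hk
        refine ⟨hc _ (hya k hk).1, ?_⟩
        have e1 : h2 * h1⁻¹ * (h1 * e k * c) = h2 * e k * c := by group
        rw [e1]
        exact hc _ (hya k hk).2
      have hd : ∀ m n : ℕ, m ≠ n → h1 * (e m : G) * c ≠ h1 * e n * c := by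
        intro m n hmn h
        exact hen m n hmn (mul_left_cancel (mul_right_cancel h))
      exact hJ.1 _ ha _ _ _ (hd 0 1 (by norm_num)) (hd 1 2 (by norm_num)) (hd 0 2 (by norm_num))
        (hm 0 (by norm_num)).1 (hm 1 (by norm_num)).1 (hm 2 (by norm_num)).1
        (hm 0 (by norm_num)).2 (hm 1 (by norm_num)).2 (hm 2 (by norm_num)).2
    -- two different entries are nonzero
    have htwo : ∃ i j, i ≠ j ∧ (∃ h, (x i).1 h = true) ∧ (∃ h, (x j).1 h = true) := by
      have hz : ∀ i j, i ≠ j → (∃ h, (x i).1 h = true) ∨ (∃ h, (x j).1 h = true) := by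
        intro i j hij
        by_contra hno
        push Not at hno
        apply hcon i j hij
        apply Subtype.ext
        funext h
        rw [Bool.eq_false_iff.2 (hno.1 h), Bool.eq_false_iff.2 (hno.2 h)]
      rcases hz 0 1 (by decide) with h0 | h1
      · rcases hz 1 2 (by decide) with h1 | h2
        · exact ⟨0, 1, by decide, h0, h1⟩
        · exact ⟨0, 2, by decide, h0, h2⟩
      · rcases hz 0 2 (by decide) with h0 | h2
        · exact ⟨0, 1, by decide, h0, h1⟩
        · exact ⟨1, 2, by decide, h1, h2⟩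
    obtain ⟨i, j, hij, ⟨h1, hh1⟩, ⟨h2, hh2⟩⟩ := htwo
    have hne : h1 ≠ h2 := by
      rintro rfl
      apply hcon i j hij
      apply Subtype.ext
      funext h
      by_cases h' : h = h1
      · subst h'; rw [hh1, hh2]
      · have e1 : (x i).1 h = false := Bool.eq_false_iff.2 fun hc => h' (hone i _ _ hc hh1)
        have e2 : (x j).1 h = false := Bool.eq_false_iff.2 fun hc => h' (hone j _ _ hc hh2)
        rw [e1, e2]
    obtain ⟨K, hKinf, hK⟩ := hx (fun k => if k = i then {y : XX J | y.1 h1 = true} else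
      if k = j then {y : XX J | y.1 h2 = true} else univ) (by
      intro k
      by_cases hk : k = i
      · subst hk
        simp only [if_true]
        exact (hopen h1).mem_nhds hh1
      · by_cases hk' : k = j
        · subst hk'
          simp only [hk, if_false, if_true]
          exact (hopen h2).mem_nhds hh2
        · simp only [hk, hk', if_false]; exact univ_mem)
    let e := hKinf.natEmbedding
    have hen : ∀ m n : ℕ, m ≠ n → (e m : G) ≠ e n := by
      intro m n h h'
      exact h (e.injective (Subtype.ext h'))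
    have hIK : (↑((Finset.range 6).image fun k => (e k : G)) : Set G) ⊆ K := by
      intro g hg
      simp only [Finset.coe_image, mem_image] at hg
      obtain ⟨k, -, rfl⟩ := hg
      exact (e k).2
    obtain ⟨y, hy⟩ := hind hK ((Finset.range 6).image fun k => (e k : G)) (by simp) hIK
      (fun _ => i)
    obtain ⟨y', hy'⟩ := hind hK ((Finset.range 6).image fun k => (e k : G)) (by simp) hIK
      (fun g => if g = e 3 ∨ g = e 4 ∨ g = e 5 then j else i)
    obtain ⟨c, hc⟩ := y.2
    obtain ⟨c', hc'⟩ := y'.2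
    have hya : ∀ k < 6, y.1 (h1 * e k) = true := by
      intro k hk
      have := hy (e k) (Finset.mem_image.2 ⟨k, Finset.mem_range.2 hk, rfl⟩)
      simp only [if_true] at this
      exact this
    have hyb : ∀ k < 3, y'.1 (h1 * e k) = true := by
      intro k hk
      have := hy' (e k) (Finset.mem_image.2 ⟨k, Finset.mem_range.2 (by omega), rfl⟩)
      have h3 : ¬ ((e k : G) = e 3 ∨ (e k : G) = e 4 ∨ (e k : G) = e 5) := by
        rintro (h | h | h)
        · exact hen k 3 (by omega) h
        · exact hen k 4 (by omega) h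
        · exact hen k 5 (by omega) h
      simp only [h3, if_false, if_true] at this
      exact this
    have hyc : ∀ k, 3 ≤ k → k < 6 → y'.1 (h2 * e k) = true := by
      intro k hk3 hk
      have := hy' (e k) (Finset.mem_image.2 ⟨k, Finset.mem_range.2 (by omega), rfl⟩)
      have h3 : ((e k : G) = e 3 ∨ (e k : G) = e 4 ∨ (e k : G) = e 5) := by
        have : k = 3 ∨ k = 4 ∨ k = 5 := by omega
        rcases this with h | h | h <;> subst h <;> simp
      simp only [h3, if_true, if_neg (Ne.symm hij)] at this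
      exact this
    have hcc : c = c' := by
      by_contra hcc
      have ha : c⁻¹ * c' ≠ 1 := by
        intro h
        exact hcc (inv_mul_eq_one.1 h)
      have hm : ∀ k < 3, h1 * e k * c ∈ J ∧ (h1 * e k * c) * (c⁻¹ * c') ∈ J := by
        intro k hk
        refine ⟨hc _ (hya k (by omega)), ?_⟩
        have e1 : (h1 * e k * c) * (c⁻¹ * c') = h1 * e k * c' := by group
        rw [e1]
        exact hc' _ (hyb k hk)
      have hd : ∀ m n : ℕ, m ≠ n → h1 * (e m : G) * c ≠ h1 * e n * c := by
        intro m n hmn h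
        exact hen m n hmn (mul_left_cancel (mul_right_cancel h))
      exact hJ.2 _ ha _ _ _ (hd 0 1 (by norm_num)) (hd 1 2 (by norm_num)) (hd 0 2 (by norm_num))
        (hm 0 (by norm_num)).1 (hm 1 (by norm_num)).1 (hm 2 (by norm_num)).1
        (hm 0 (by norm_num)).2 (hm 1 (by norm_num)).2 (hm 2 (by norm_num)).2
    subst hcc
    have ha : h2 * h1⁻¹ ≠ 1 := by
      intro h
      exact hne (mul_inv_eq_one.1 h).symm
    have hm : ∀ k, 3 ≤ k → k < 6 → h1 * e k * c ∈ J ∧ h2 * h1⁻¹ * (h1 * e k * c) ∈ J := by
      intro k hk3 hk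
      refine ⟨hc _ (hya k hk), ?_⟩
      have e1 : h2 * h1⁻¹ * (h1 * e k * c) = h2 * e k * c := by group
      rw [e1]
      exact hc' _ (hyc k hk3 hk)
    have hd : ∀ m n : ℕ, m ≠ n → h1 * (e m : G) * c ≠ h1 * e n * c := by
      intro m n hmn h
      exact hen m n hmn (mul_left_cancel (mul_right_cancel h))
    exact hJ.1 _ ha _ _ _ (hd 3 4 (by norm_num)) (hd 4 5 (by norm_num)) (hd 3 5 (by norm_num))
      (hm 3 (by norm_num) (by norm_num)).1 (hm 4 (by norm_num) (by norm_num)).1
      (hm 5 (by norm_num) (by norm_num)).1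
      (hm 3 (by norm_num) (by norm_num)).2 (hm 4 (by norm_num) (by norm_num)).2
      (hm 5 (by norm_num) (by norm_num)).2
  · -- not tame
    intro htame
    obtain ⟨j0, hj0⟩ := hJinf.nonempty
    let z : XX J := ⟨fun _ => false, 1, fun h hh => by simp at hh⟩
    let w : XX J := ⟨fun h => decide (h = 1), j0, fun h hh => by
      have : h = 1 := by simpa using hh
      rw [this, one_mul]; exact hj0⟩
    have hIT : IsITTuple G ![z, w] := by
      intro U hU
      obtain ⟨F0, hF0⟩ := nhds_fin (hU 0)
      obtain ⟨F1, hF1⟩ := nhds_fin (hU 1)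
      refine ⟨{g | g ∈ J ∧ ∀ h ∈ F0 ∪ F1, h ≠ 1 → h * g ∉ J}, ?_, ?_⟩
      · have hfin : (⋃ h ∈ {h | h ∈ F0 ∪ F1 ∧ h ≠ 1}, {x | x ∈ J ∧ h * x ∈ J}).Finite := by
          apply Set.Finite.biUnion
          · exact (Finset.finite_toSet (F0 ∪ F1)).subset fun h hh => hh.1
          · intro h hh
            exact thin_finite hJ hh.2
        refine (hJinf.diff hfin).mono ?_
        rintro g ⟨hg, hg'⟩
        refine ⟨hg, fun h hh h1 hhg => hg' ?_⟩
        simp only [mem_iUnion]
        exact ⟨h, ⟨hh, h1⟩, hg, hhg⟩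
      · intro I _ hI σ
        let y : XX J := ⟨fun h => decide (h ∈ I ∧ σ h = 1), 1, fun h hh => by
          have : h ∈ I ∧ σ h = 1 := by simpa using hh
          rw [mul_one]; exact (hI this.1).1⟩
        refine ⟨y, ?_⟩
        simp only [mem_iInter]
        intro g hg
        refine ⟨g • y, ?_, by simp⟩
        have hgy : ∀ h, (g • y).1 h = decide (h * g ∈ I ∧ σ (h * g) = 1) := fun h => rfl
        have hoff : ∀ h ∈ F0 ∪ F1, h ≠ 1 → (g • y).1 h = false := by
          intro h hh h1
          rw [hgy, decide_eq_false_iff_not]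
          rintro ⟨h2, -⟩
          exact (hI hg).2 h hh h1 (hI h2).1
        have hcase : σ g = 0 ∨ σ g = 1 := by
          have := (σ g).2
          rcases (show (σ g).1 = 0 ∨ (σ g).1 = 1 by omega) with h | h
          · left; exact Fin.ext h
          · right; exact Fin.ext h
        rcases hcase with h0 | h0
        · rw [h0]
          apply hF0
          intro h hh
          by_cases h1 : h = 1
          · subst h1
            rw [hgy, one_mul, h0]
            simp [z]
          · rw [hoff h (Finset.mem_union_left _ hh) h1]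
            rfl
        · rw [h0]
          apply hF1
          intro h hh
          by_cases h1 : h = 1
          · subst h1
            rw [hgy, one_mul, h0]
            simp [w, hg]
          · rw [hoff h (Finset.mem_union_right _ hh) h1]
            simp [w, h1]
    obtain ⟨i, j, hij, h⟩ := htame _ hIT
    have hzw : z ≠ w := by
      intro h
      have := congrArg (fun x : XX J => x.1 1) h
      simp [z, w] at this
    fin_cases i <;> fin_cases j
    · exact hij rfl
    · exact hzw h
    · exact hzw h.symm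
    · exact hij rfl

end Pool.Agent.Results.MP_6a4cde_an.ThreeTameNotTame
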